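import Pool.Agent.P09.RightAlt

set_option autoImplicit false

universe u v

namespace Pool.Agent.Results.MP_c44da7_al.NoAltCenterPoly

open Pool.Agent.P09.RightAlt

/-- Let `Φ` be a commutative ring (`Φ = ℤ` gives the posed question about rings) and let `f` be
a nonassociative polynomial over `Φ`.  If all values of `f` in all right alternative
`Φ`-algebras lie in the alternative center, then `f` is an identity of all right alternative
`Φ`-algebras. -/
theorem result (Φ : Type u) [CommRing Φ] (f : NAPoly Φ)
    (h : ValuesInAlternativeCenter.{u, v} Φ f) : IsIdentity.{u, v} Φ f :=
  identity_of_alternativeCenter Φ f h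

end Pool.Agent.Results.MP_c44da7_al.NoAltCenterPoly
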