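import Pool.Agent.P09.RightAlt

set_option autoImplicit false

universe u v

namespace Pool.Agent.Results.MP_c44da7_al.NoNuclearPoly

open Pool.Agent.P09.RightAlt

/-- Let `Φ` be a commutative ring (`Φ = ℤ` gives the posed question about rings) and let `f` be
a nonassociative polynomial over `Φ`.  If all values of `f` in all right alternative
`Φ`-algebras lie in the right associative center, or all of them lie in the left associative
center, then `f` is an identity of all right alternative `Φ`-algebras. -/
theorem result (Φ : Type u) [CommRing Φ] (f : NAPoly Φ) :
    (ValuesInRightCenter.{u, v} Φ f → IsIdentity.{u, v} Φ f) ∧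
    (ValuesInLeftCenter.{u, v} Φ f → IsIdentity.{u, v} Φ f) :=
  ⟨identity_of_rightCenter Φ f, identity_of_leftCenter Φ f⟩

end Pool.Agent.Results.MP_c44da7_al.NoNuclearPoly
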